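import Pool.Agent.Helper55.TA.Imperf

/-! Project TA: graphs in the class C (`B` stable, the rest complete bipartite plus isolated
vertices) are t-perfect. -/

set_option autoImplicit false

namespace TPA

open SimpleGraph Finset MeasureTheory

section walks

variable {V : Type*} {G : SimpleGraph V} {x : V → ℝ}

theorem even_walk (hE : ∀ u v, G.Adj u v → x u + x v ≤ 1) :
    ∀ (m : ℕ) {u v : V} (p : G.Walk u v), p.length = 2 * m →
      (p.support.tail.map x).sum ≤ m := by
  intro m u v p hp
  cases p with
  | nil => simp
  | cons h q =>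
    have hq : q.length = 2 * (m - 1) + 1 := by
      simp only [Walk.length_cons] at hp
      omega
    have hm : 1 ≤ m := by
      simp only [Walk.length_cons] at hp
      omega
    have := path_pair hE (m - 1) q hq
    rw [Nat.cast_sub hm] at this
    simp only [Walk.support_cons, List.tail_cons]
    push_cast at this
    linarith

variable [DecidableEq V]

theorem split_walk : ∀ {u v : V} (p : G.Walk u v), ¬ p.IsPath →
    ∃ (z : V) (p1 : G.Walk u z) (p2 : G.Walk z z) (p3 : G.Walk z v),
      0 < p2.length ∧ p = p1.append (p2.append p3) := by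
  intro u v p
  induction p with
  | nil => intro h; simp at h
  | @cons a b c h q ih =>
    intro hp
    by_cases hq : q.IsPath
    · have ha : a ∈ q.support := by
        by_contra hcon
        exact hp ((Walk.cons_isPath_iff h q).2 ⟨hq, hcon⟩)
      refine ⟨a, Walk.nil, Walk.cons h (q.takeUntil a ha), q.dropUntil a ha, by simp, ?_⟩
      rw [Walk.nil_append, Walk.cons_append, Walk.take_spec]
    · obtain ⟨z, p1, p2, p3, h1, h2⟩ := ih hq
      refine ⟨z, Walk.cons h p1, p2, p3, h1, ?_⟩
      rw [Walk.cons_append, ← h2]

variable [Fintype V]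

/-- The odd cycle inequality for closed walks of odd length. -/
theorem closed_odd (hx : x ∈ TStab G) : ∀ (n : ℕ) {u : V} (c : G.Walk u u), c.length = 2 * n + 1 →
    (c.support.tail.map x).sum ≤ n := by
  have hE : ∀ u v, G.Adj u v → x u + x v ≤ 1 := hx.2.1
  intro n
  induction n using Nat.strong_induction_on with
  | _ n ih =>
    intro u c hc
    cases c with
    | nil => simp at hc
    | @cons _ v _ h p =>
      have hpl : p.length = 2 * n := by
        simp only [Walk.length_cons] at hc
        omega
      by_cases hp : p.IsPath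
      · by_cases he : s(u, v) ∈ p.edges
        · -- then the path is one edge, contradiction with parity
          exfalso
          cases p with
          | nil => simp at he
          | @cons _ w _ h' q =>
            rw [Walk.cons_isPath_iff] at hp
            simp only [Walk.edges_cons, List.mem_cons] at he
            rcases he with he | he
            · rw [Sym2.eq_iff] at he
              have hw : w = u := by
                rcases he with ⟨h1, h2⟩ | ⟨h1, h2⟩
                · exact absurd h1 h.ne
                · exact h1.symm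
              subst hw
              have : q = Walk.nil := by
                have := (Walk.isPath_iff_nil).1 hp.1
                exact Walk.eq_nil_iff_nil.2 this
              rw [this] at hpl
              simp at hpl
              omega
            · exact hp.2 (Walk.snd_mem_support_of_mem_edges q he)
        · have hcyc : (Walk.cons h p).IsCycle := (Walk.cons_isCycle_iff p h).2 ⟨hp, he⟩
          have h2 := hx.2.2 u (Walk.cons h p) hcyc ⟨n, hc⟩
          rw [List.sum_toFinset x hcyc.support_nodup, hc] at h2
          push_cast at h2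
          linarith
      · obtain ⟨z, p1, p2, p3, hpos, rfl⟩ := split_walk p hp
        have hlen : p1.length + (p2.length + p3.length) = 2 * n := by
          rw [← hpl, Walk.length_append, Walk.length_append]
        have hsum : ((Walk.cons h (p1.append (p2.append p3))).support.tail.map x).sum =
            ((Walk.cons h (p1.append p3)).support.tail.map x).sum +
              (p2.support.tail.map x).sum := by
          have e1 : (Walk.cons h (p1.append (p2.append p3))).support.tail =
              p1.support ++ (p2.support.tail ++ p3.support.tail) := by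
            rw [Walk.support_cons, List.tail_cons, Walk.support_append, Walk.tail_support_append]
          have e2 : (Walk.cons h (p1.append p3)).support.tail =
              p1.support ++ p3.support.tail := by
            rw [Walk.support_cons, List.tail_cons, Walk.support_append]
          rw [e1, e2]
          simp only [List.map_append, List.sum_append]
          ring
        rw [hsum]
        have hl' : (Walk.cons h (p1.append p3)).length = p1.length + p3.length + 1 := by
          rw [Walk.length_cons, Walk.length_append]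
        rcases Nat.even_or_odd' p2.length with ⟨m, hm | hm⟩
        · have hm1 : 1 ≤ m := by omega
          have h1 := even_walk hE m p2 hm
          have h2 := ih (n - m) (by omega) (Walk.cons h (p1.append p3)) (by rw [hl']; omega)
          rw [Nat.cast_sub (by omega)] at h2
          linarith
        · have h1 := ih m (by omega) p2 hm
          have h2 := even_walk hE (n - m) (Walk.cons h (p1.append p3)) (by rw [hl']; omega)
          rw [Nat.cast_sub (by omega)] at h2
          linarith

end walks

section mixing

variable {V : Type*} [Fintype V] {G : SimpleGraph V} {x : V → ℝ}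

/-- A random stable set with marginals `x` shows that `x` is in the stable set polytope. -/
theorem mem_stab (S : ℝ → Set V) (hS : ∀ t, G.IsIndepSet (S t))
    (hm : ∀ v, MeasurableSet {t | v ∈ S t})
    (hv : ∀ v, (volume.restrict (Set.Ico (0 : ℝ) 1)).real {t | v ∈ S t} = x v) : x ∈ Stab G := by
  classical
  set μ : Measure ℝ := volume.restrict (Set.Ico (0 : ℝ) 1) with hμ
  have hprob : IsProbabilityMeasure μ := ⟨by simp [hμ]⟩
  have hfin : {x : V → ℝ | ∃ S : Set V, G.IsIndepSet S ∧
      x = S.indicator (fun _ => (1 : ℝ))}.Finite := by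
    refine (Set.finite_range (fun S : Set V => S.indicator (fun _ => (1 : ℝ)))).subset ?_
    rintro y ⟨S, _, rfl⟩
    exact ⟨S, rfl⟩
  have hcl : IsClosed (Stab G) := (hfin.isCompact_convexHull ℝ).isClosed
  have hconv : Convex ℝ (Stab G) := convex_convexHull ℝ _
  set f : ℝ → V → ℝ := fun t => (S t).indicator (fun _ => (1 : ℝ)) with hf
  have hfe : ∀ v, (fun t => f t v) = {t | v ∈ S t}.indicator 1 := by
    intro v
    funext t
    by_cases h : v ∈ S t
    · simp [hf, h]
    · simp [hf, h]
  have hint : ∀ v, Integrable (fun t => f t v) μ := by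
    intro v
    rw [hfe v, integrable_indicator_iff (hm v)]
    exact (integrable_const (1 : ℝ)).integrableOn
  have hI : Integrable f μ := Integrable.of_eval hint
  have hmem := Convex.integral_mem hconv hcl (Filter.Eventually.of_forall fun t =>
    subset_convexHull ℝ _ ⟨S t, hS t, rfl⟩) hI
  have hxe : x = ∫ t, f t ∂μ := by
    funext v
    rw [eval_integral hint v, hfe v, integral_indicator_one (hm v)]
    exact (hv v).symm
  rw [hxe]
  exact hmem

end mixing

section classC

variable {V : Type*} {G : SimpleGraph V}

/-- `lab` is a C-labelling of `G`: the vertices with label 3 form a stable set (`B`), the vertices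
with label 1 and 2 (`A₁` and `A₂`) form a complete bipartite graph, the vertices with label 0
(`A₀`) have all their neighbours in `B`. -/
def IsC (G : SimpleGraph V) (lab : V → Fin 4) : Prop :=
  (∀ u v, lab u = 3 → lab v = 3 → ¬ G.Adj u v) ∧
  (∀ u v, lab u ≠ 3 → lab v ≠ 3 →
    (G.Adj u v ↔ (lab u = 1 ∧ lab v = 2) ∨ (lab u = 2 ∧ lab v = 1)))

/-- lower bounds for the position of the interval of a vertex in `B` -/
inductive Low (G : SimpleGraph V) (lab : V → Fin 4) (x : V → ℝ) : V → ℝ → Prop
  | base (a b : V) (ha : lab a = 1) (hb : lab b = 3) (hab : G.Adj a b) : Low G lab x b (x a)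
  | step (b a b' : V) (t : ℝ) (h : Low G lab x b t) (ha : lab a = 0) (hba : G.Adj b a)
      (hb' : lab b' = 3) (hab' : G.Adj a b') : Low G lab x b' (t + x b + x a - 1)

theorem low_walk {lab : V → Fin 4} {x : V → ℝ} {b : V} {t : ℝ} (h : Low G lab x b t) :
    ∃ (a : V) (p : G.Walk a b) (k : ℕ), lab a = 1 ∧ p.length = 2 * k + 1 ∧
      t + x b = (p.support.map x).sum - k := by
  induction h with
  | base a b ha hb hab =>
    exact ⟨a, Walk.cons hab Walk.nil, 0, ha, by simp, by simp⟩
  | step b a b' t h ha hba hb' hab' ih =>
    obtain ⟨a1, p, k, h1, h2, h3⟩ := ih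
    refine ⟨a1, (p.concat hba).concat hab', k + 1, h1, ?_, ?_⟩
    · rw [Walk.length_concat, Walk.length_concat, h2]; ring
    · rw [Walk.support_concat, Walk.support_concat]
      simp only [List.map_append, List.sum_append, List.map_cons, List.map_nil, List.sum_cons,
        List.sum_nil]
      push_cast
      linarith

variable [Fintype V] [DecidableEq V]

theorem low_edge {lab : V → Fin 4} {x : V → ℝ} (hx : x ∈ TStab G) {b : V} {t : ℝ}
    (h : Low G lab x b t) : t + x b ≤ 1 := by
  obtain ⟨a, p, k, -, h2, h3⟩ := low_walk h
  have := path_pair hx.2.1 k p h2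
  linarith

theorem low_tri {lab : V → Fin 4} (hC : IsC G lab) {x : V → ℝ} (hx : x ∈ TStab G) {b : V} {t : ℝ}
    (h : Low G lab x b t) {c : V} (hc : lab c = 2) (hbc : G.Adj b c) : t + x b + x c ≤ 1 := by
  obtain ⟨a, p, k, h1, h2, h3⟩ := low_walk h
  have hca : G.Adj c a := (hC.2 c a (by rw [hc]; decide) (by rw [h1]; decide)).2
    (Or.inr ⟨hc, h1⟩)
  have := closed_odd hx (k + 1) (Walk.cons hca (p.concat hbc)) (by
    rw [Walk.length_cons, Walk.length_concat, h2]; ring)
  rw [Walk.support_cons, List.tail_cons, Walk.support_concat] at this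
  simp only [List.map_append, List.sum_append, List.map_cons, List.map_nil, List.sum_cons,
    List.sum_nil] at this
  push_cast at this
  linarith

/-- Points of the polytope of a graph in the class C, with `x ≤ 1`, are mixtures of stable
sets. -/
theorem classC_subset {lab : V → Fin 4} (hC : IsC G lab) {x : V → ℝ} (hx : x ∈ TStab G)
    (hx1 : ∀ v, x v ≤ 1) : x ∈ Stab G := by
  classical
  have h0 : ∀ v, 0 ≤ x v := hx.1
  have hE : ∀ u v, G.Adj u v → x u + x v ≤ 1 := hx.2.1
  set T : V → Set ℝ := fun b => {0} ∪ {t | Low G lab x b t} with hT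
  set tb : V → ℝ := fun b => sSup (T b) with htb
  have hne : ∀ b, (T b).Nonempty := fun b => ⟨0, Or.inl rfl⟩
  have hub : ∀ b, ∀ t ∈ T b, t ≤ 1 - x b := by
    rintro b t (rfl | h)
    · linarith [hx1 b]
    · have := low_edge hx h
      linarith
  have hbdd : ∀ b, BddAbove (T b) := fun b => ⟨1 - x b, hub b⟩
  have tb0 : ∀ b, 0 ≤ tb b := fun b => le_csSup (hbdd b) (Or.inl rfl)
  have tb1 : ∀ b, tb b + x b ≤ 1 := by
    intro b
    have : tb b ≤ 1 - x b := csSup_le (hne b) (hub b)
    linarith
  have tb2 : ∀ b c, lab c = 2 → G.Adj b c → tb b + x b + x c ≤ 1 := by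
    intro b c hc hbc
    have : tb b ≤ 1 - x b - x c := by
      refine csSup_le (hne b) ?_
      rintro t (rfl | h)
      · linarith [hE b c hbc]
      · have := low_tri hC hx h hc hbc
        linarith
    linarith
  have tb3 : ∀ a b, lab a = 1 → lab b = 3 → G.Adj a b → x a ≤ tb b := by
    intro a b ha hb hab
    exact le_csSup (hbdd b) (Or.inr (Low.base a b ha hb hab))
  have tb4 : ∀ b a b', lab a = 0 → lab b' = 3 → G.Adj b a → G.Adj a b' →
      tb b + x b + x a - 1 ≤ tb b' := by
    intro b a b' ha hb' hba hab'
    have : tb b ≤ tb b' + 1 - x b - x a := by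
      refine csSup_le (hne b) ?_
      rintro t (rfl | h)
      · linarith [hE b a hba, tb0 b']
      · have := le_csSup (hbdd b') (Or.inr (Low.step b a b' t h ha hba hb' hab'))
        change t ≤ sSup (T b') + 1 - x b - x a
        linarith
    linarith
  set W : V → Set ℝ := fun a => {0} ∪ {s | ∃ b, lab b = 3 ∧ G.Adj b a ∧
    s = tb b + x b + x a - 1} with hW
  set sa : V → ℝ := fun a => sSup (W a) with hsa
  have hneW : ∀ b, (W b).Nonempty := fun b => ⟨0, Or.inl rfl⟩
  have hubW : ∀ a, ∀ s ∈ W a, s ≤ x a := by
    rintro a s (rfl | ⟨b, _, _, rfl⟩)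
    · exact h0 a
    · linarith [tb1 b]
  have hbddW : ∀ a, BddAbove (W a) := fun a => ⟨x a, hubW a⟩
  have sa0 : ∀ a, 0 ≤ sa a := fun a => le_csSup (hbddW a) (Or.inl rfl)
  have sa1 : ∀ a, sa a ≤ x a := fun a => csSup_le (hneW a) (hubW a)
  have sa2 : ∀ a b, lab a = 0 → lab b = 3 → G.Adj a b → sa a ≤ tb b := by
    intro a b ha hb hab
    refine csSup_le (hneW a) ?_
    rintro s (rfl | ⟨b', hb', hba', rfl⟩)
    · exact tb0 b
    · exact tb4 b' a b ha hb hba' hab
  have sa3 : ∀ a b, lab b = 3 → G.Adj b a → tb b + x b ≤ sa a + 1 - x a := by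
    intro a b hb hba
    have := le_csSup (hbddW a) (Or.inr ⟨b, hb, hba, rfl⟩ : tb b + x b + x a - 1 ∈ W a)
    change tb b + x b ≤ sSup (W a) + 1 - x a
    linarith
  -- the random stable set
  set I : V → Set ℝ := fun v =>
    if lab v = 1 then Set.Iio (x v)
    else if lab v = 2 then Set.Ici (1 - x v)
    else if lab v = 3 then Set.Ico (tb v) (tb v + x v)
    else Set.Iio (sa v) ∪ Set.Ici (sa v + 1 - x v) with hI
  have I1 : ∀ v, lab v = 1 → I v = Set.Iio (x v) := fun v h => by simp [hI, h]
  have I2 : ∀ v, lab v = 2 → I v = Set.Ici (1 - x v) := fun v h => by simp [hI, h]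
  have I3 : ∀ v, lab v = 3 → I v = Set.Ico (tb v) (tb v + x v) := fun v h => by simp [hI, h]
  have I0 : ∀ v, lab v = 0 → I v = Set.Iio (sa v) ∪ Set.Ici (sa v + 1 - x v) :=
    fun v h => by simp [hI, h]
  have hlab : ∀ v, lab v = 0 ∨ lab v = 1 ∨ lab v = 2 ∨ lab v = 3 := by
    intro v
    generalize lab v = i
    revert i
    decide
  have d12 : ∀ u v t, lab u = 1 → lab v = 2 → G.Adj u v → t ∈ I u → t ∈ I v → False := by
    intro u v t hu hv huv h1 h2
    rw [I1 u hu, Set.mem_Iio] at h1
    rw [I2 v hv, Set.mem_Ici] at h2
    linarith [hE u v huv]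
  have d13 : ∀ u v t, lab u = 1 → lab v = 3 → G.Adj u v → t ∈ I u → t ∈ I v → False := by
    intro u v t hu hv huv h1 h2
    rw [I1 u hu, Set.mem_Iio] at h1
    rw [I3 v hv, Set.mem_Ico] at h2
    linarith [tb3 u v hu hv huv]
  have d23 : ∀ u v t, lab u = 2 → lab v = 3 → G.Adj u v → t ∈ I u → t ∈ I v → False := by
    intro u v t hu hv huv h1 h2
    rw [I2 u hu, Set.mem_Ici] at h1
    rw [I3 v hv, Set.mem_Ico] at h2
    linarith [tb2 v u hu huv.symm]
  have d03 : ∀ u v t, lab u = 0 → lab v = 3 → G.Adj u v → t ∈ I u → t ∈ I v → False := by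
    intro u v t hu hv huv h1 h2
    rw [I0 u hu, Set.mem_union, Set.mem_Iio, Set.mem_Ici] at h1
    rw [I3 v hv, Set.mem_Ico] at h2
    rcases h1 with h1 | h1
    · linarith [sa2 u v hu hv huv]
    · linarith [sa3 u v hv huv.symm]
  have hstable : ∀ t, G.IsIndepSet {v | t ∈ I v} := by
    intro t u hu v hv _ huv
    simp only [Set.mem_ofPred_eq] at hu hv
    have hns := huv.symm
    have hAA := hC.2 u v
    rcases hlab u with h1 | h1 | h1 | h1 <;> rcases hlab v with h2 | h2 | h2 | h2 <;>
      simp only [h1, h2] at hAA
    · have := (hAA (by decide) (by decide)).1 huv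
      revert this; decide
    · have := (hAA (by decide) (by decide)).1 huv
      revert this; decide
    · have := (hAA (by decide) (by decide)).1 huv
      revert this; decide
    · exact d03 u v t h1 h2 huv hu hv
    · have := (hAA (by decide) (by decide)).1 huv
      revert this; decide
    · have := (hAA (by decide) (by decide)).1 huv
      revert this; decide
    · exact d12 u v t h1 h2 huv hu hv
    · exact d13 u v t h1 h2 huv hu hv
    · have := (hAA (by decide) (by decide)).1 huv
      revert this; decide
    · exact d12 v u t h2 h1 hns hv hu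
    · have := (hAA (by decide) (by decide)).1 huv
      revert this; decide
    · exact d23 u v t h1 h2 huv hu hv
    · exact d03 v u t h2 h1 hns hv hu
    · exact d13 v u t h2 h1 hns hv hu
    · exact d23 v u t h2 h1 hns hv hu
    · exact (hC.1 u v h1 h2) huv
  refine mem_stab (fun t => {v | t ∈ I v}) hstable ?_ ?_
  · intro v
    have : {t | v ∈ {v | t ∈ I v}} = I v := by ext t; simp
    rw [this]
    rcases hlab v with h | h | h | h
    · rw [I0 v h]; exact measurableSet_Iio.union measurableSet_Ici
    · rw [I1 v h]; exact measurableSet_Iio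
    · rw [I2 v h]; exact measurableSet_Ici
    · rw [I3 v h]; exact measurableSet_Ico
  · intro v
    have : {t | v ∈ {v | t ∈ I v}} = I v := by ext t; simp
    rw [this]
    rcases hlab v with h | h | h | h
    · rw [I0 v h, measureReal_restrict_apply (measurableSet_Iio.union measurableSet_Ici)]
      have e : (Set.Iio (sa v) ∪ Set.Ici (sa v + 1 - x v)) ∩ Set.Ico 0 1 =
          Set.Ico 0 (sa v) ∪ Set.Ico (sa v + 1 - x v) 1 := by
        ext t
        simp only [Set.mem_inter_iff, Set.mem_union, Set.mem_Iio, Set.mem_Ici, Set.mem_Ico]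
        constructor
        · rintro ⟨h1 | h1, h2, h3⟩
          · exact Or.inl ⟨h2, h1⟩
          · exact Or.inr ⟨h1, h3⟩
        · rintro (⟨h1, h2⟩ | ⟨h1, h2⟩)
          · exact ⟨Or.inl h2, h1, by linarith [sa1 v, hx1 v]⟩
          · exact ⟨Or.inr h1, by linarith [sa0 v, hx1 v], h2⟩
      rw [e, measureReal_union ?_ measurableSet_Ico (by rw [Real.volume_Ico]; exact ENNReal.ofReal_ne_top)
        (by rw [Real.volume_Ico]; exact ENNReal.ofReal_ne_top)]
      · rw [Real.volume_real_Ico_of_le (sa0 v), Real.volume_real_Ico_of_le (by linarith [sa1 v])]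
        ring
      · rw [Set.disjoint_left]
        intro t h1 h2
        rw [Set.mem_Ico] at h1 h2
        linarith [hx1 v]
    · rw [I1 v h, measureReal_restrict_apply measurableSet_Iio]
      have e : Set.Iio (x v) ∩ Set.Ico 0 1 = Set.Ico 0 (x v) := by
        ext t
        simp only [Set.mem_inter_iff, Set.mem_Iio, Set.mem_Ico]
        constructor
        · rintro ⟨h1, h2, h3⟩
          exact ⟨h2, h1⟩
        · rintro ⟨h1, h2⟩
          exact ⟨h2, h1, by linarith [hx1 v]⟩
      rw [e, Real.volume_real_Ico_of_le (h0 v)]
      ring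
    · rw [I2 v h, measureReal_restrict_apply measurableSet_Ici]
      have e : Set.Ici (1 - x v) ∩ Set.Ico 0 1 = Set.Ico (1 - x v) 1 := by
        ext t
        simp only [Set.mem_inter_iff, Set.mem_Ici, Set.mem_Ico]
        constructor
        · rintro ⟨h1, h2, h3⟩
          exact ⟨h1, h3⟩
        · rintro ⟨h1, h2⟩
          exact ⟨h1, by linarith [hx1 v], h2⟩
      rw [e, Real.volume_real_Ico_of_le (by linarith [h0 v])]
      ring
    · rw [I3 v h, measureReal_restrict_apply measurableSet_Ico]
      have e : Set.Ico (tb v) (tb v + x v) ∩ Set.Ico 0 1 = Set.Ico (tb v) (tb v + x v) := by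
        refine Set.inter_eq_left.2 ?_
        intro t ht
        rw [Set.mem_Ico] at ht ⊢
        exact ⟨by linarith [tb0 v], by linarith [tb1 v]⟩
      rw [e, Real.volume_real_Ico_of_le (by linarith [h0 v])]
      ring

/-- Graphs in the class C are t-perfect (isolated vertices allowed). -/
theorem tp_of_isC {lab : V → Fin 4} (hC : IsC G lab) : TP G :=
  fun _ hx hx1 => classC_subset hC hx hx1

/-- The stable set polytope is contained in `TStab`. -/
theorem stab_subset (G : SimpleGraph V) : Stab G ⊆ TStab G := by
  classical
  refine convexHull_min ?_ ?_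
  · rintro x ⟨S, hS, rfl⟩
    have hE : ∀ u v, G.Adj u v → S.indicator (fun _ => (1 : ℝ)) u +
        S.indicator (fun _ => (1 : ℝ)) v ≤ 1 := by
      intro u v huv
      by_cases hu : u ∈ S
      · by_cases hv : v ∈ S
        · exact absurd huv (hS hu hv huv.ne)
        · simp [hu, hv]
      · by_cases hv : v ∈ S
        · simp [hu, hv]
        · simp [hu, hv]
    refine ⟨fun v => Set.indicator_nonneg (fun _ _ => zero_le_one) v, hE, ?_⟩
    intro u c hc ho
    by_cases hall : ∀ z ∈ c.support, z ∈ S
    · exfalso
      cases c with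
      | nil => simp at ho
      | @cons _ w _ h p =>
        exact hS (hall u (by simp)) (hall w (by simp)) h.ne h
    · push Not at hall
      obtain ⟨z, hz, hzS⟩ := hall
      exact zero_cycle hE c hc ho hz (by simp [hzS])
  · intro a ha b hb s t hs ht hst
    refine ⟨?_, ?_, ?_⟩
    · intro v
      have h1 := ha.1 v
      have h2 := hb.1 v
      simp only [Pi.add_apply, Pi.smul_apply, smul_eq_mul]
      positivity
    · intro u v huv
      have h1 := mul_le_mul_of_nonneg_left (ha.2.1 u v huv) hs
      have h2 := mul_le_mul_of_nonneg_left (hb.2.1 u v huv) ht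
      simp only [Pi.add_apply, Pi.smul_apply, smul_eq_mul]
      linarith
    · intro u c hc ho
      have h1 := mul_le_mul_of_nonneg_left (ha.2.2 u c hc ho) hs
      have h2 := mul_le_mul_of_nonneg_left (hb.2.2 u c hc ho) ht
      simp only [Pi.add_apply, Pi.smul_apply, smul_eq_mul, Finset.sum_add_distrib,
        ← Finset.mul_sum]
      calc s * ∑ v ∈ c.support.tail.toFinset, a v + t * ∑ v ∈ c.support.tail.toFinset, b v
          ≤ s * (((c.length : ℝ) - 1) / 2) + t * (((c.length : ℝ) - 1) / 2) := add_le_add h1 h2
        _ = ((c.length : ℝ) - 1) / 2 := by rw [← add_mul, hst, one_mul]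

/-- Graphs in the class C without isolated vertices are t-perfect. -/
theorem tperfect_of_isC {lab : V → Fin 4} (hC : IsC G lab) (hiso : ∀ v, ∃ u, G.Adj v u) :
    TPerfect G := by
  refine Set.Subset.antisymm (stab_subset G) fun x hx => classC_subset hC hx ?_
  intro v
  obtain ⟨u, hu⟩ := hiso v
  have := hx.2.1 v u hu
  linarith [hx.1 u]

end classC

end TPA
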