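import Pool.Agent.Helper55.TA.Base

/-! Project TA: an induced odd cycle with a vertex adjacent to three consecutive vertices of it is
not t-perfect. -/

set_option autoImplicit false

namespace TPA

open SimpleGraph Finset

section walks

variable {V : Type*} {G : SimpleGraph V} {x : V → ℝ}

theorem path_pair (hE : ∀ u v, G.Adj u v → x u + x v ≤ 1) :
    ∀ (m : ℕ) {u v : V} (p : G.Walk u v), p.length = 2 * m + 1 →
      (p.support.map x).sum ≤ m + 1 := by
  intro m
  induction m with
  | zero =>
    intro u v p hp
    cases p with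
    | nil => simp at hp
    | cons h q =>
      cases q with
      | nil =>
        simp only [Walk.support_cons, Walk.support_nil, List.map_cons, List.map_nil,
          List.sum_cons, List.sum_nil, Nat.cast_zero, zero_add, add_zero]
        exact hE _ _ h
      | cons h' q' => simp at hp
  | succ m ih =>
    intro u v p hp
    cases p with
    | nil => simp at hp
    | cons h q =>
      cases q with
      | nil => simp at hp
      | cons h' q' =>
        have hl : q'.length = 2 * m + 1 := by
          simp only [Walk.length_cons] at hp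
          omega
        have := ih q' hl
        simp only [Walk.support_cons, List.map_cons, List.sum_cons]
        have h1 := hE _ _ h
        push_cast
        linarith

variable [DecidableEq V]

/-- An odd cycle through a vertex of weight zero satisfies the odd cycle inequality. -/
theorem zero_cycle (hE : ∀ u v, G.Adj u v → x u + x v ≤ 1)
    {u : V} (c : G.Walk u u) (hc : c.IsCycle) (ho : Odd c.length) {z : V} (hz : z ∈ c.support)
    (hxz : x z = 0) :
    ∑ v ∈ c.support.tail.toFinset, x v ≤ ((c.length : ℝ) - 1) / 2 := by
  have hl : (c.rotate z hz).length = c.length := Walk.length_rotate c z hz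
  have hc' : (c.rotate z hz).IsCycle := hc.rotate hz
  have hs : (c.rotate z hz).support.tail.toFinset = c.support.tail.toFinset :=
    List.toFinset_eq_of_perm _ _ (Walk.support_rotate c z hz).perm
  rw [← hs, ← hl]
  rw [← hl] at ho
  generalize hcc : c.rotate z hz = c' at hc' ho
  rw [List.sum_toFinset x hc'.support_nodup]
  have h3 := hc'.three_le_length
  obtain ⟨m, hm⟩ := ho
  cases c' with
  | nil => simp at h3
  | cons h p =>
    have hp : p.length = 2 * m := by
      simp only [Walk.length_cons] at hm
      omega
    have hm1 : 1 ≤ m := by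
      simp only [Walk.length_cons] at h3
      omega
    simp only [Walk.support_cons, List.tail_cons]
    have hrev : (p.support.map x).sum = (p.reverse.support.map x).sum := by
      rw [Walk.support_reverse, List.map_reverse, List.sum_reverse]
    rw [hrev]
    have hp' : p.reverse.length = 2 * m := by rw [Walk.length_reverse, hp]
    generalize hq : p.reverse = q at hp'
    cases q with
    | nil => simp at hp'; omega
    | cons h' q' =>
      have hq' : q'.length = 2 * (m - 1) + 1 := by
        simp only [Walk.length_cons] at hp'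
        omega
      have := path_pair hE (m - 1) q' hq'
      simp only [Walk.support_cons, List.map_cons, List.sum_cons, hxz, zero_add]
      rw [hm]
      have hc1 : ((m - 1 : ℕ) : ℝ) = (m : ℝ) - 1 := by
        push_cast [Nat.cast_sub hm1]; ring
      rw [hc1] at this
      push_cast
      linarith

end walks

section rim

variable {V : Type*} {G : SimpleGraph V}

/-- Winding number along an induced cycle `r`. -/
theorem winding (k : ℕ) (r : ZMod (2 * k + 1) → V) (hinj : Function.Injective r)
    (hadj : ∀ i j, G.Adj (r i) (r j) → j = i + 1 ∨ i = j + 1) :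
    ∀ {u v : V} (p : G.Walk u v), (∀ w ∈ p.support, w ∈ Set.range r) → ∀ i j, r i = u → r j = v →
      ∃ s : ℤ, |s| ≤ p.length ∧ (s - p.length) % 2 = 0 ∧ ((s : ZMod (2 * k + 1)) = j - i) := by
  intro u v p
  induction p with
  | nil =>
    intro _ i j hi hj
    refine ⟨0, by simp, by simp, ?_⟩
    have : i = j := hinj (hi.trans hj.symm)
    simp [this]
  | @cons a b c h p ih =>
    intro hs i j hi hj
    have hb : b ∈ Set.range r := hs b (by simp)
    obtain ⟨l, hl⟩ := hb
    obtain ⟨s, h1, h2, h3⟩ := ih (fun w hw => hs w (by simp [hw])) l j hl hj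
    have h' : G.Adj (r i) (r l) := by rw [hi, hl]; exact h
    rcases hadj i l h' with h4 | h4
    · refine ⟨s + 1, ?_, ?_, ?_⟩
      · simp only [Walk.length_cons]
        push_cast
        have := abs_add_le s 1
        simp at this
        linarith
      · simp only [Walk.length_cons]
        push_cast
        omega
      · push_cast
        rw [h3, h4]; ring
    · refine ⟨s - 1, ?_, ?_, ?_⟩
      · simp only [Walk.length_cons]
        push_cast
        have := abs_sub s 1
        simp at this
        linarith
      · simp only [Walk.length_cons]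
        push_cast
        omega
      · push_cast
        rw [h3, h4]; ring

theorem rim_length (k : ℕ) (r : ZMod (2 * k + 1) → V) (hinj : Function.Injective r)
    (hadj : ∀ i j, G.Adj (r i) (r j) → j = i + 1 ∨ i = j + 1)
    {u : V} (c : G.Walk u u) (hc : ∀ w ∈ c.support, w ∈ Set.range r) (ho : Odd c.length) :
    2 * k + 1 ≤ c.length := by
  obtain ⟨i, hi⟩ := hc u (by simp)
  obtain ⟨s, h1, h2, h3⟩ := winding k r hinj hadj c hc i i hi hi
  rw [sub_self] at h3
  have h4 : ((2 * k + 1 : ℕ) : ℤ) ∣ s := (ZMod.intCast_zmod_eq_zero_iff_dvd s _).1 h3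
  have hs0 : s ≠ 0 := by
    rintro rfl
    obtain ⟨m, hm⟩ := ho
    omega
  have h5 := Int.le_of_dvd (abs_pos.2 hs0) ((dvd_abs _ _).2 h4)
  have h6 := h5.trans h1
  exact_mod_cast h6

theorem sum_zmod (n : ℕ) [NeZero n] (g : ZMod n → ℝ) (i0 : ZMod n) :
    ∑ i, g i = ∑ j ∈ range n, g (i0 + (j : ZMod n)) := by
  rw [← Equiv.sum_comp (Equiv.addLeft i0) g]
  refine Finset.sum_nbij' (fun i => i.val) (fun j => (j : ZMod n)) ?_ ?_ ?_ ?_ ?_
  · intro i _
    simpa using ZMod.val_lt i
  · intro j _
    simp
  · intro i _
    simp
  · intro j hj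
    exact ZMod.val_natCast_of_lt (by simpa using hj)
  · intro i _
    simp

theorem sum_pairs (F : ℕ → ℝ) (k : ℕ) :
    ∑ j ∈ range (2 * k + 1), F j = F 0 + ∑ m ∈ range k, (F (2 * m + 1) + F (2 * m + 2)) := by
  induction k with
  | zero => simp
  | succ k ih =>
    rw [show 2 * (k + 1) + 1 = 2 * k + 1 + 1 + 1 by ring, Finset.sum_range_succ,
      Finset.sum_range_succ, ih, Finset.sum_range_succ]
    rw [show 2 * k + 1 + 1 = 2 * k + 2 by ring]
    ring

variable [Fintype V] [DecidableEq V]

/-- An induced odd cycle with a further vertex adjacent to three consecutive vertices of the cycle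
is not contained in a t-perfect graph. -/
theorem no_three (hG : TP G) (k : ℕ) (hk : 1 ≤ k) (r : ZMod (2 * k + 1) → V)
    (hinj : Function.Injective r)
    (hadj : ∀ i j, G.Adj (r i) (r j) ↔ j = i + 1 ∨ i = j + 1)
    (h : V) (hh : ∀ i, h ≠ r i) (i : ZMod (2 * k + 1))
    (h1 : G.Adj h (r i)) (h2 : G.Adj h (r (i + 1))) (h3 : G.Adj h (r (i + 2))) : False := by
  classical
  have : NeZero (2 * k + 1) := ⟨by omega⟩
  have hkR : (1 : ℝ) ≤ k := by exact_mod_cast hk
  set R : Finset V := univ.image r with hR
  have hhR : h ∉ R := by
    simp only [hR, mem_image, mem_univ, true_and, not_exists]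
    exact fun i hi => hh i hi.symm
  set T : Finset V := insert h R with hT
  set D : ℝ := 2 * k + 1 with hD
  have hDpos : 0 < D := by rw [hD]; positivity
  set x : V → ℝ := fun v => if v = h then 1 / D else if v ∈ R then k / D else 0 with hx
  have hxh : x h = 1 / D := by simp [hx]
  have hxR : ∀ v ∈ R, x v = k / D := by
    intro v hv
    have : v ≠ h := fun h' => hhR (h' ▸ hv)
    simp [hx, this, hv]
  have hx0 : ∀ v, 0 ≤ x v := by
    intro v; simp only [hx]; split_ifs <;> positivity
  have h1D : 1 / D ≤ k / D := by gcongr
  have hxle : ∀ v, x v ≤ k / D := by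
    intro v; simp only [hx]; split_ifs
    · exact h1D
    · exact le_rfl
    · positivity
  have hE : ∀ u v, G.Adj u v → x u + x v ≤ 1 := by
    intro u v _
    have h4 : (k : ℝ) / D ≤ 1 / 2 := by
      rw [div_le_iff₀ hDpos, hD]; linarith
    linarith [hxle u, hxle v]
  have hxT : x ∈ TStab G := by
    refine ⟨hx0, hE, ?_⟩
    intro u c hc ho
    by_cases hall : ∀ z ∈ c.support, z ∈ T
    · have hlen3 := hc.three_le_length
      have hcardt : c.support.tail.toFinset.card = c.length := by
        rw [List.toFinset_card_of_nodup hc.support_nodup]; simp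
      have hlenR : (3 : ℝ) ≤ c.length := by exact_mod_cast hlen3
      by_cases hhc : h ∈ c.support
      · -- through the hub
        have hhc' : h ∈ c.support.tail.toFinset := by
          rw [List.mem_toFinset]
          rcases (Walk.mem_support_iff c).1 hhc with h5 | h5
          · have := c.end_mem_tail_support (by
              intro hnil
              have := Walk.length_eq_zero_iff.2 hnil
              omega)
            rw [h5]; exact this
          · exact h5
        rw [← Finset.add_sum_erase _ _ hhc', hxh]
        have h6 : ∑ v ∈ c.support.tail.toFinset.erase h, x v ≤ ((c.length : ℝ) - 1) * (k / D) := by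
          calc ∑ v ∈ c.support.tail.toFinset.erase h, x v
              ≤ ∑ _v ∈ c.support.tail.toFinset.erase h, (k : ℝ) / D :=
                Finset.sum_le_sum fun v _ => hxle v
            _ = (c.support.tail.toFinset.erase h).card * ((k : ℝ) / D) := by
                rw [Finset.sum_const, nsmul_eq_mul]
            _ = ((c.length : ℝ) - 1) * (k / D) := by
                rw [Finset.card_erase_of_mem hhc', hcardt, Nat.cast_sub (by omega), Nat.cast_one]
        refine (add_le_add_right h6 (1 / D)).trans ?_
        have h7 : 1 / D + ((c.length : ℝ) - 1) * (k / D) = (1 + ((c.length : ℝ) - 1) * k) / D := by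
          field_simp
        rw [h7, div_le_iff₀ hDpos, hD]
        nlinarith
      · -- inside the rim
        have hcR : ∀ w ∈ c.support, w ∈ Set.range r := by
          intro w hw
          have h5 := hall w hw
          rw [hT, mem_insert] at h5
          rcases h5 with h5 | h5
          · exact absurd (h5 ▸ hw) hhc
          · simp only [hR, mem_image, mem_univ, true_and] at h5
            exact h5
        have hlen := rim_length k r hinj (fun i j hij => (hadj i j).1 hij) c hcR ho
        have hlen' : D ≤ c.length := by
          rw [hD]; exact_mod_cast hlen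
        calc ∑ v ∈ c.support.tail.toFinset, x v
            ≤ ∑ _v ∈ c.support.tail.toFinset, (k : ℝ) / D :=
              Finset.sum_le_sum fun v _ => hxle v
          _ = (c.length : ℝ) * (k / D) := by
              rw [Finset.sum_const, nsmul_eq_mul, hcardt]
          _ = (c.length : ℝ) * k / D := by ring
          _ ≤ ((c.length : ℝ) - 1) / 2 := by
              rw [div_le_iff₀ hDpos]
              rw [hD] at hlen' ⊢
              nlinarith
    · push Not at hall
      obtain ⟨z, hz, hzT⟩ := hall
      refine zero_cycle hE c hc ho hz ?_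
      rw [hT, mem_insert, not_or] at hzT
      simp [hx, hzT.1, hzT.2]
  -- the certificate
  have hsumT : ∀ f : V → ℝ, ∑ v, (if v ∈ T then (1 : ℝ) else 0) * f v = f h + ∑ i, f (r i) := by
    intro f
    have : ∀ v, (if v ∈ T then (1 : ℝ) else 0) * f v = if v ∈ T then f v else 0 := by
      intro v; split_ifs <;> simp
    rw [Finset.sum_congr rfl fun v _ => this v, Finset.sum_ite_mem, Finset.univ_inter, hT,
      Finset.sum_insert hhR, hR, Finset.sum_image (fun a _ b _ hab => hinj hab)]
  have hx1 : ∀ v, x v ≤ 1 := by
    intro v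
    have h4 : (k : ℝ) / D ≤ 1 := by
      rw [div_le_iff₀ hDpos, hD]; linarith
    exact (hxle v).trans h4
  have hcert := cert hG hxT hx1 (fun v => if v ∈ T then 1 else 0) (k : ℝ) ?_
  · rw [hsumT, hxh] at hcert
    have h5 : ∀ i, x (r i) = k / D := fun i => hxR _ (by simp [hR])
    rw [Finset.sum_congr rfl fun i _ => h5 i, Finset.sum_const, nsmul_eq_mul, Finset.card_univ,
      ZMod.card] at hcert
    have h6 : ((2 * k + 1 : ℕ) : ℝ) * (k / D) = k := by
      have : ((2 * k + 1 : ℕ) : ℝ) = D := by rw [hD]; push_cast; ring
      rw [this]; field_simp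
    rw [h6] at hcert
    have : 0 < 1 / D := by positivity
    linarith
  · intro S hS
    rw [hsumT]
    set f : V → ℝ := S.indicator (fun _ => (1 : ℝ)) with hf
    have hf01 : ∀ v, f v = 0 ∨ f v = 1 := by
      intro v
      by_cases hv : v ∈ S
      · right; simp [hf, hv]
      · left; simp [hf, hv]
    have hfe : ∀ u v, G.Adj u v → f u + f v ≤ 1 := by
      intro u v huv
      by_cases hu : u ∈ S
      · by_cases hv : v ∈ S
        · exact absurd huv (hS hu hv huv.ne)
        · simp [hf, hu, hv]
      · by_cases hv : v ∈ S
        · simp [hf, hu, hv]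
        · simp [hf, hu, hv]
    have hstep : ∀ i, f (r i) + f (r (i + 1)) ≤ 1 := fun i => hfe _ _ ((hadj _ _).2 (Or.inl rfl))
    have hdec : ∀ i0 : ZMod (2 * k + 1), ∑ i, f (r i) = f (r i0) +
        ∑ m ∈ range k, (f (r (i0 + ((2 * m + 1 : ℕ) : ZMod (2 * k + 1)))) +
          f (r (i0 + ((2 * m + 2 : ℕ) : ZMod (2 * k + 1))))) := by
      intro i0
      rw [sum_zmod (2 * k + 1) (fun i => f (r i)) i0,
        sum_pairs (fun j => f (r (i0 + (j : ZMod (2 * k + 1))))) k]
      simp
    have hpair : ∀ (i0 : ZMod (2 * k + 1)) (m : ℕ),
        f (r (i0 + ((2 * m + 1 : ℕ) : ZMod (2 * k + 1)))) +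
          f (r (i0 + ((2 * m + 2 : ℕ) : ZMod (2 * k + 1)))) ≤ 1 := by
      intro i0 m
      have := hstep (i0 + ((2 * m + 1 : ℕ) : ZMod (2 * k + 1)))
      have h5 : i0 + ((2 * m + 1 : ℕ) : ZMod (2 * k + 1)) + 1 =
          i0 + ((2 * m + 2 : ℕ) : ZMod (2 * k + 1)) := by
        push_cast; ring
      rwa [h5] at this
    by_cases hhS : h ∈ S
    · -- the hub is in S
      have hfh : f h = 1 := by simp [hf, hhS]
      have hzero : ∀ i, G.Adj h (r i) → f (r i) = 0 := by
        intro i hi
        have := hfe _ _ hi
        rcases hf01 (r i) with h5 | h5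
        · exact h5
        · rw [hfh, h5] at this; norm_num at this
      have z1 := hzero _ h1
      have z2 := hzero _ h2
      have z3 := hzero _ h3
      obtain ⟨k', rfl⟩ : ∃ k', k = k' + 1 := ⟨k - 1, by omega⟩
      rw [hdec (i + 2), z3, Finset.sum_range_succ]
      have e1 : i + 2 + ((2 * k' + 1 : ℕ) : ZMod (2 * (k' + 1) + 1)) = i := by
        have : ((2 * (k' + 1) + 1 : ℕ) : ZMod (2 * (k' + 1) + 1)) = 0 := ZMod.natCast_self _
        push_cast at this ⊢
        linear_combination this
      have e2 : i + 2 + ((2 * k' + 2 : ℕ) : ZMod (2 * (k' + 1) + 1)) = i + 1 := by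
        have : ((2 * (k' + 1) + 1 : ℕ) : ZMod (2 * (k' + 1) + 1)) = 0 := ZMod.natCast_self _
        push_cast at this ⊢
        linear_combination this
      rw [e1, e2, z1, z2, hfh]
      have h6 : ∑ m ∈ range k', (f (r (i + 2 + ((2 * m + 1 : ℕ) : ZMod (2 * (k' + 1) + 1)))) +
          f (r (i + 2 + ((2 * m + 2 : ℕ) : ZMod (2 * (k' + 1) + 1))))) ≤ ∑ _m ∈ range k', (1 : ℝ) :=
        Finset.sum_le_sum fun m _ => hpair (i + 2) m
      rw [Finset.sum_const, Finset.card_range, nsmul_eq_mul, mul_one] at h6
      have h7 : ((k' + 1 : ℕ) : ℝ) = k' + 1 := by push_cast; ring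
      rw [h7]
      linarith
    · have hfh : f h = 0 := by simp [hf, hhS]
      rw [hfh, zero_add]
      obtain ⟨i0, hi0⟩ : ∃ i0, f (r i0) = 0 := by
        have := hstep 0
        rcases hf01 (r 0) with h5 | h5
        · exact ⟨0, h5⟩
        · rcases hf01 (r (0 + 1)) with h6 | h6
          · exact ⟨_, h6⟩
          · rw [h5, h6] at this; norm_num at this
      rw [hdec i0, hi0, zero_add]
      have h6 := Finset.sum_le_sum (s := range k) fun m _ => hpair i0 m
      rw [Finset.sum_const, Finset.card_range, nsmul_eq_mul, mul_one] at h6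
      exact h6

end rim

end TPA
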