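import Mathlib

/-! Project TA (MP_7680f0_co): almost all t-perfect graphs are 3-colourable.
Base file: definitions and the basic lemmas about t-perfect graphs. -/

set_option autoImplicit false

namespace TPA

open SimpleGraph Finset

/-- The polytope given by nonnegativity, edge inequalities and odd cycle inequalities. -/
def TStab {V : Type*} [Fintype V] [DecidableEq V] (G : SimpleGraph V) : Set (V → ℝ) :=
  {x : V → ℝ | (∀ v, 0 ≤ x v) ∧ (∀ u v, G.Adj u v → x u + x v ≤ 1) ∧
      ∀ (u : V) (c : G.Walk u u), c.IsCycle → Odd c.length →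
        ∑ v ∈ c.support.tail.toFinset, x v ≤ ((c.length : ℝ) - 1) / 2}

/-- The stable set polytope. -/
def Stab {V : Type*} (G : SimpleGraph V) : Set (V → ℝ) :=
  convexHull ℝ {x : V → ℝ | ∃ S : Set V, G.IsIndepSet S ∧ x = S.indicator (fun _ => (1 : ℝ))}

/-- A finite graph is t-perfect if its stable set polytope equals `TStab`. -/
def TPerfect {V : Type*} [Fintype V] [DecidableEq V] (G : SimpleGraph V) : Prop :=
  Stab G = TStab G

/-- t-perfection for graphs that may have isolated vertices (the inequalities `x v ≤ 1` are added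
to `TStab`; they follow from the edge inequalities for all vertices that are not isolated). -/
def TP {V : Type*} [Fintype V] [DecidableEq V] (G : SimpleGraph V) : Prop :=
  ∀ x ∈ TStab G, (∀ v, x v ≤ 1) → x ∈ Stab G

theorem TPerfect.tp {V : Type*} [Fintype V] [DecidableEq V] {G : SimpleGraph V}
    (h : TPerfect G) : TP G := by
  intro x hx _
  have h' : Stab G = TStab G := h
  rw [h']; exact hx

section cert

variable {V : Type*} [Fintype V] [DecidableEq V] {G : SimpleGraph V}

theorem cert (hG : TP G) {x : V → ℝ} (hx : x ∈ TStab G) (hx1 : ∀ v, x v ≤ 1)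
    (w : V → ℝ) (M : ℝ)
    (h : ∀ S : Set V, G.IsIndepSet S → ∑ v, w v * S.indicator (fun _ => (1 : ℝ)) v ≤ M) :
    ∑ v, w v * x v ≤ M := by
  have hx' : x ∈ Stab G := hG x hx hx1
  have hconv : Convex ℝ {x : V → ℝ | ∑ v, w v * x v ≤ M} := by
    intro a ha b hb s t hs ht hst
    simp only [Set.mem_ofPred_eq] at ha hb ⊢
    have : ∑ v, w v * (s • a + t • b) v = s * ∑ v, w v * a v + t * ∑ v, w v * b v := by
      rw [Finset.mul_sum, Finset.mul_sum, ← Finset.sum_add_distrib]
      refine Finset.sum_congr rfl fun v _ => ?_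
      simp only [Pi.add_apply, Pi.smul_apply, smul_eq_mul]
      ring
    rw [this]
    calc s * ∑ v, w v * a v + t * ∑ v, w v * b v ≤ s * M + t * M := by
          gcongr
      _ = M := by rw [← add_mul, hst, one_mul]
  have hsub : {x : V → ℝ | ∃ S : Set V, G.IsIndepSet S ∧ x = S.indicator (fun _ => (1 : ℝ))} ⊆
      {x : V → ℝ | ∑ v, w v * x v ≤ M} := by
    rintro y ⟨S, hS, rfl⟩
    exact h S hS
  exact convexHull_min hsub hconv hx'

/-- Every set `U` of vertices of a t-perfect graph contains a stable set with at least a third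
of its vertices. -/
theorem exists_third (hG : TP G) (U : Finset V) :
    ∃ S : Finset V, S ⊆ U ∧ G.IsIndepSet (S : Set V) ∧ (U.card : ℝ) / 3 ≤ (S.card : ℝ) := by
  classical
  by_contra hcon
  push Not at hcon
  -- all stable subsets of U have card < |U|/3
  set x : V → ℝ := fun v => if v ∈ U then 1 / 3 else 0 with hxdef
  have hx13 : ∀ v, x v ≤ 1 / 3 := by
    intro v; simp only [hxdef]; split_ifs <;> norm_num
  have hx0 : ∀ v, 0 ≤ x v := by
    intro v; simp only [hxdef]; split_ifs <;> norm_num
  have hx : x ∈ TStab G := by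
    refine ⟨hx0, fun u v _ => by linarith [hx13 u, hx13 v], ?_⟩
    intro u c hc _
    have h3 : 3 ≤ c.length := hc.three_le_length
    have hcard : c.support.tail.toFinset.card ≤ c.length := by
      refine (List.toFinset_card_le _).trans ?_
      simp
    calc ∑ v ∈ c.support.tail.toFinset, x v ≤ ∑ _v ∈ c.support.tail.toFinset, (1 / 3 : ℝ) :=
          Finset.sum_le_sum fun v _ => hx13 v
      _ = c.support.tail.toFinset.card * (1 / 3 : ℝ) := by simp
      _ ≤ (c.length : ℝ) * (1 / 3) := by
          gcongr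
      _ ≤ ((c.length : ℝ) - 1) / 2 := by
          have : (3 : ℝ) ≤ c.length := by exact_mod_cast h3
          linarith
  -- a maximum over the finitely many stable sets
  have hS0' : ∃ S0 : Finset V, S0 ⊆ U ∧ G.IsIndepSet (S0 : Set V) ∧
      ∀ S : Finset V, S ⊆ U → G.IsIndepSet (S : Set V) → S.card ≤ S0.card := by
    obtain ⟨S0, h1, h2⟩ := Finset.exists_max_image
      ((Finset.univ : Finset (Finset V)).filter fun S => S ⊆ U ∧ G.IsIndepSet (S : Set V))
      (fun S => S.card) ⟨∅, by simp [SimpleGraph.IsIndepSet]⟩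
    simp only [Finset.mem_filter, Finset.mem_univ, true_and] at h1 h2
    exact ⟨S0, h1.1, h1.2, fun S ha hb => h2 S ⟨ha, hb⟩⟩
  obtain ⟨S1, hS1U, hS1i, hS1m⟩ := hS0'
  have hlt := hcon S1 hS1U hS1i
  have := cert hG hx (fun v => by linarith [hx13 v]) (fun v => if v ∈ U then 1 else 0)
    (S1.card : ℝ) ?_
  · have hsum : ∑ v, (if v ∈ U then (1 : ℝ) else 0) * x v = U.card / 3 := by
      have : ∀ v, (if v ∈ U then (1 : ℝ) else 0) * x v = if v ∈ U then (1 / 3 : ℝ) else 0 := by
        intro v
        by_cases h : v ∈ U <;> simp [hxdef, h]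
      rw [Finset.sum_congr rfl fun v _ => this v]
      rw [Finset.sum_ite_mem, Finset.univ_inter]
      simp
      ring
    rw [hsum] at this
    linarith
  · intro S hS
    have h1 : ∑ v, (if v ∈ U then (1 : ℝ) else 0) * S.indicator (fun _ => (1 : ℝ)) v =
        ((U.filter (· ∈ S)).card : ℝ) := by
      have : ∀ v, (if v ∈ U then (1 : ℝ) else 0) * S.indicator (fun _ => (1 : ℝ)) v =
          if v ∈ U.filter (· ∈ S) then (1 : ℝ) else 0 := by
        intro v
        by_cases h : v ∈ U <;> by_cases h' : v ∈ S <;> simp [h, h']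
      rw [Finset.sum_congr rfl fun v _ => this v]
      rw [Finset.sum_ite_mem, Finset.univ_inter]
      simp
    rw [h1]
    have h2 := hS1m (U.filter (· ∈ S)) (Finset.filter_subset _ _) (by
      intro a ha b hb hab
      simp only [Finset.coe_filter, Set.mem_ofPred_eq] at ha hb
      exact hS ha.2 hb.2 hab)
    exact_mod_cast h2

end cert

end TPA
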